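import Pool.Agent.Work.MP_db9399_bg.Interface

/-! THEOREM BIG: basic lemmas. -/

set_option autoImplicit false

namespace Pool.Agent.Work.MP_db9399_bg

open Finset Classical
open Pool.Agent.Work.MP_db9399_all (nb)
open Pool.Agent.Work.MP_db9399_px (LWalk hit ee)
open Pool.Agent.Work.MP_db9399_dn (NB IsMat Tot)
open Pool.Agent.Work.MP_db9399_sc (cut Crit Conn Env Fam Rnd Hv)

universe u

theorem mem_nb {V : Type u} [Fintype V] {G : SimpleGraph V} {v w : V} :
    w ∈ nb G v ↔ G.Adj v w := by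
  simp [nb]

theorem mem_cl {V : Type u} [Fintype V] {T : Type} {lab : V → T} {P : Finset T} {v : V} :
    v ∈ cl lab P ↔ lab v ∈ P := by
  simp [cl]

theorem mem_PN {T β : Type} [Fintype β] {P : β → Finset T} {R : β → β → Prop} {b : β} {t : T} :
    t ∈ PN P R b ↔ ∃ b', R b b' ∧ t ∈ P b' := by
  simp [PN]

theorem den_nonneg {T : Type} [Fintype T] (P : Finset T) : 0 ≤ den P :=
  div_nonneg (Nat.cast_nonneg _) (Nat.cast_nonneg _)

theorem den_le_one {T : Type} [Fintype T] (P : Finset T) : den P ≤ 1 := by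
  unfold den
  apply div_le_one_of_le₀
  · exact_mod_cast card_le_univ P
  · exact Nat.cast_nonneg _

theorem den_mono {T : Type} [Fintype T] {P Q : Finset T} (h : P ⊆ Q) : den P ≤ den Q := by
  unfold den
  apply div_le_div_of_nonneg_right
  · exact_mod_cast card_le_card h
  · exact Nat.cast_nonneg _

theorem den_biUnion {T β : Type} [Fintype T] (S : Finset β) (P : β → Finset T)
    (h : ∀ b ∈ S, ∀ b' ∈ S, b ≠ b' → Disjoint (P b) (P b')) :
    den (S.biUnion P) = ∑ b ∈ S, den (P b) := by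
  unfold den
  rw [card_biUnion h, ← Finset.sum_div]
  push_cast
  rfl

theorem IsPat.den_PN {T β : Type} [Fintype T] [Fintype β] {P : β → Finset T} {R : β → β → Prop}
    {n L : ℕ} {p : ℝ} (h : IsPat P R n L p) (b : β) : den (PN P R b) = n * p := by
  unfold PN
  rw [den_biUnion _ _ (fun b1 _ b2 _ hne => h.dis b1 b2 hne), Finset.sum_congr rfl
    (fun b' _ => h.dn b'), Finset.sum_const, h.reg b, nsmul_eq_mul]

/-- the class of a label is unique -/
theorem IsPat.uniq {T β : Type} [Fintype T] [Fintype β] {P : β → Finset T} {R : β → β → Prop}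
    {n L : ℕ} {p : ℝ} (h : IsPat P R n L p) {b b' : β} {t : T} (h1 : t ∈ P b) (h2 : t ∈ P b') :
    b = b' := by
  by_contra hne
  exact (Finset.disjoint_left.mp (h.dis b b' hne)) h1 h2

section lbl
variable {l m r K K1 : ℕ}

theorem mem_bx {A : Finset (ZMod (2 * m + 1))} {B : Finset (ZMod (2 * l + 1))}
    {C : Finset (Fin (r + 1))} {D : Finset (ZMod (2 * m + 1))} {E : Finset (Fin (K + 1))}
    {F : Finset (Fin (K1 + 1))} {t : Lbl l m r K K1} :
    t ∈ bx A B C D E F ↔ t.1 ∈ A ∧ t.2.1 ∈ B ∧ t.2.2.1 ∈ C ∧ t.2.2.2.1 ∈ D ∧ t.2.2.2.2.1 ∈ E ∧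
      t.2.2.2.2.2 ∈ F := by
  unfold bx
  rw [Finset.mem_product, Finset.mem_product, Finset.mem_product, Finset.mem_product,
    Finset.mem_product]

theorem card_Lbl : Fintype.card (Lbl l m r K K1) =
    (2 * m + 1) * ((2 * l + 1) * ((r + 1) * ((2 * m + 1) * ((K + 1) * (K1 + 1))))) := by
  rw [Fintype.card_prod, Fintype.card_prod, Fintype.card_prod, Fintype.card_prod,
    Fintype.card_prod, ZMod.card, ZMod.card, Fintype.card_fin, Fintype.card_fin, Fintype.card_fin]

theorem den_bx (A : Finset (ZMod (2 * m + 1))) (B : Finset (ZMod (2 * l + 1)))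
    (C : Finset (Fin (r + 1))) (D : Finset (ZMod (2 * m + 1))) (E : Finset (Fin (K + 1)))
    (F : Finset (Fin (K1 + 1))) :
    den (bx A B C D E F : Finset (Lbl l m r K K1)) =
      (A.card / (2 * (m : ℝ) + 1)) * (B.card / (2 * (l : ℝ) + 1)) * (C.card / ((r : ℝ) + 1)) *
        (D.card / (2 * (m : ℝ) + 1)) * (E.card / ((K : ℝ) + 1)) * (F.card / ((K1 : ℝ) + 1)) := by
  unfold den bx
  rw [card_Lbl, Finset.card_product, Finset.card_product, Finset.card_product,
    Finset.card_product, Finset.card_product]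
  push_cast
  have h1 : (2 * (m : ℝ) + 1) ≠ 0 := by positivity
  have h2 : (2 * (l : ℝ) + 1) ≠ 0 := by positivity
  have h3 : ((r : ℝ) + 1) ≠ 0 := by positivity
  have h4 : ((K : ℝ) + 1) ≠ 0 := by positivity
  have h5 : ((K1 : ℝ) + 1) ≠ 0 := by positivity
  field_simp

theorem card_univ_zmod (n : ℕ) : ((univ : Finset (ZMod (2 * n + 1))).card : ℝ) =
    2 * (n : ℝ) + 1 := by
  rw [Finset.card_univ, ZMod.card]
  push_cast
  ring

theorem card_univ_fin (n : ℕ) : ((univ : Finset (Fin (n + 1))).card : ℝ) = (n : ℝ) + 1 := by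
  rw [Finset.card_univ, Fintype.card_fin]
  push_cast
  ring

/-- cells as unions of classes -/
theorem Vc_eq {V : Type u} [Fintype V] (lab : V → Lbl l m r K K1) (a : ZMod (2 * m + 1)) :
    Vc lab a = cl lab (bx {a} univ univ univ univ univ) := by
  ext v
  rw [mem_cl, mem_bx, Vc, Finset.mem_filter]
  simp

theorem mem_Vc {V : Type u} [Fintype V] {lab : V → Lbl l m r K K1} {a : ZMod (2 * m + 1)}
    {v : V} : v ∈ Vc lab a ↔ (lab v).1 = a := by
  simp [Vc]

theorem den_cell (a : ZMod (2 * m + 1)) :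
    den (bx {a} univ univ univ univ univ : Finset (Lbl l m r K K1)) = 1 / (2 * (m : ℝ) + 1) := by
  rw [den_bx, card_univ_zmod, card_univ_zmod, card_univ_fin, card_univ_fin, card_univ_fin,
    Finset.card_singleton]
  have h1 : (2 * (m : ℝ) + 1) ≠ 0 := by positivity
  have h2 : (2 * (l : ℝ) + 1) ≠ 0 := by positivity
  have h3 : ((r : ℝ) + 1) ≠ 0 := by positivity
  have h4 : ((K : ℝ) + 1) ≠ 0 := by positivity
  have h5 : ((K1 : ℝ) + 1) ≠ 0 := by positivity
  push_cast
  field_simp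

/-- small natural numbers are different in `ZMod (2 * m + 1)` -/
theorem natCast_inj {m a b : ℕ} (ha : a < 2 * m + 1) (hb : b < 2 * m + 1)
    (h : (a : ZMod (2 * m + 1)) = b) : a = b := by
  have h1 := (ZMod.natCast_eq_natCast_iff' a b (2 * m + 1)).mp h
  rwa [Nat.mod_eq_of_lt ha, Nat.mod_eq_of_lt hb] at h1

theorem natCast_eq_neg {m a b : ℕ} (h0 : 0 < a + b) (h1 : a + b < 2 * m + 1)
    (h : (a : ZMod (2 * m + 1)) = -(b : ZMod (2 * m + 1))) : False := by
  have h2 : ((a + b : ℕ) : ZMod (2 * m + 1)) = ((0 : ℕ) : ZMod (2 * m + 1)) := by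
    push_cast
    rw [h]
    ring
  have h3 := natCast_inj h1 (by omega) h2
  omega

theorem c3f_inj (a : ZMod (2 * m + 1)) (h : Fin m) : Function.Injective (c3f a h) := by
  have hh := h.2
  have e1 : (((h : ℕ) + 1 : ℕ) : ZMod (2 * m + 1)) ≠ 0 := by
    intro h0
    have h2 : (((h : ℕ) + 1 : ℕ) : ZMod (2 * m + 1)) = ((0 : ℕ) : ZMod (2 * m + 1)) := by
      rw [h0]; simp
    have := natCast_inj (by omega) (by omega) h2
    omega
  have e2 : (((h : ℕ) + 1 : ℕ) : ZMod (2 * m + 1)) ≠ -(((h : ℕ) + 1 : ℕ) : ZMod (2 * m + 1)) :=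
    fun h0 => natCast_eq_neg (by omega) (by omega) h0
  have n1 : a + (((h : ℕ) + 1 : ℕ) : ZMod (2 * m + 1)) ≠ a := fun h0 => e1 (by
    linear_combination h0)
  have n2 : a - (((h : ℕ) + 1 : ℕ) : ZMod (2 * m + 1)) ≠ a := fun h0 => e1 (by
    linear_combination -h0)
  have n3 : a + (((h : ℕ) + 1 : ℕ) : ZMod (2 * m + 1)) ≠
      a - (((h : ℕ) + 1 : ℕ) : ZMod (2 * m + 1)) := fun h0 => e2 (by
    linear_combination h0)
  intro i j hij
  unfold c3f at hij
  fin_cases i <;> fin_cases j <;> simp only [Fin.zero_eta, Fin.mk_one, Fin.reduceFinMk,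
    Matrix.cons_val_zero, Matrix.cons_val_one, Matrix.cons_val, Fin.isValue] at hij ⊢
  · exact absurd hij.symm n1
  · exact absurd hij.symm n2
  · exact absurd hij n1
  · exact absurd hij n3
  · exact absurd hij n2
  · exact absurd hij.symm n3

theorem mem_c3 {a x : ZMod (2 * m + 1)} {h : Fin m} : x ∈ c3 a h ↔
    x = a ∨ x = a + ((h : ℕ) + 1 : ℕ) ∨ x = a - ((h : ℕ) + 1 : ℕ) := by
  unfold c3 c3f
  simp only [Finset.mem_image, Finset.mem_univ, true_and]
  constructor
  · rintro ⟨i, hi⟩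
    fin_cases i
    · exact Or.inl hi.symm
    · exact Or.inr (Or.inl hi.symm)
    · exact Or.inr (Or.inr hi.symm)
  · rintro (h0 | h0 | h0)
    · exact ⟨0, h0.symm⟩
    · exact ⟨1, h0.symm⟩
    · exact ⟨2, h0.symm⟩

/-- two is invertible in `ZMod (2 * m + 1)` -/
theorem two_mul_inj {x y : ZMod (2 * m + 1)} (h : 2 * x = 2 * y) : x = y := by
  have h1 : ((m : ZMod (2 * m + 1)) + 1) * 2 = 1 := by
    have h2 : ((2 * m + 1 : ℕ) : ZMod (2 * m + 1)) = 0 := ZMod.natCast_self _
    push_cast at h2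
    linear_combination h2
  have h3 : ((m : ZMod (2 * m + 1)) + 1) * (2 * x) = ((m : ZMod (2 * m + 1)) + 1) * (2 * y) := by
    rw [h]
  rw [← mul_assoc, ← mul_assoc, h1, one_mul, one_mul] at h3
  exact h3

/-- `W` is independent in the reserve -/
theorem not_rs_of_inW {t t' : Lbl l m r K K1} (h : inW t) (h' : inW t') : ¬ rs t.2.1 t'.2.1 := by
  obtain ⟨h1, h2⟩ := h
  obtain ⟨h3, h4⟩ := h'
  have e1 : t.2.1 = ((t.2.1.val : ℕ) : ZMod (2 * l + 1)) := (ZMod.natCast_zmod_val _).symm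
  have e2 : t'.2.1 = ((t'.2.1.val : ℕ) : ZMod (2 * l + 1)) := (ZMod.natCast_zmod_val _).symm
  have e3 : t.2.1 + t'.2.1 = ((t.2.1.val + t'.2.1.val : ℕ) : ZMod (2 * l + 1)) := by
    push_cast
    rw [← e1, ← e2]
  intro h
  unfold rs at h
  rw [e3] at h
  rcases h with h | h
  · have h5 : ((t.2.1.val + t'.2.1.val : ℕ) : ZMod (2 * l + 1)) = ((0 : ℕ) : ZMod (2 * l + 1)) := by
      rw [h]; simp
    have := natCast_inj (by omega) (by omega) h5
    omega
  · have h5 : ((t.2.1.val + t'.2.1.val : ℕ) : ZMod (2 * l + 1)) = ((1 : ℕ) : ZMod (2 * l + 1)) := by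
      rw [h]; simp
    have := natCast_inj (by omega) (by omega) h5
    omega

end lbl

section mono
variable {V : Type u} [Fintype V]

theorem BG.mono {g ε ε' : ℝ} {G : SimpleGraph V} {d : ℕ} (h : BG g ε G d) (he : ε ≤ ε') :
    BG g ε' G d where
  deg := h.deg
  low v := by
    have h1 := h.low v
    have h2 : (0 : ℝ) ≤ (ε' - ε) * d := mul_nonneg (by linarith) (Nat.cast_nonneg _)
    nlinarith
  bip := h.bip
  nsc := h.nsc

theorem Good.mono {G : SimpleGraph V} {d : ℕ} {σ σ' : ℝ} {T : Type} [Fintype T] {lab : V → T}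
    {P Q : Finset T} {A B : Finset V} (h : Good G d σ lab P Q A B) (hs : σ ≤ σ') :
    Good G d σ' lab P Q A B := by
  obtain ⟨h1, h2, h3⟩ := h
  have h4 : (0 : ℝ) ≤ (A.card : ℝ) + B.card := by positivity
  have h5 : σ * ((A.card : ℝ) + B.card) ≤ σ' * ((A.card : ℝ) + B.card) :=
    mul_le_mul_of_nonneg_right hs h4
  have h6 : σ * d * ((A.card : ℝ) + B.card) ≤ σ' * d * ((A.card : ℝ) + B.card) :=
    mul_le_mul_of_nonneg_right (mul_le_mul_of_nonneg_right hs (Nat.cast_nonneg _)) h4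
  exact ⟨h1.trans h6, h2.trans h5, h3.trans h5⟩

theorem LabP.mono {G : SimpleGraph V} {d : ℕ} {σ σ' c1 c1' : ℝ} {T : Type} [Fintype T]
    {lab : V → T} (h : LabP G d σ c1 lab) (hs : σ ≤ σ') (hc : c1 ≤ c1') :
    LabP G d σ' c1' lab where
  deg v P := (h.deg v P).trans (mul_le_mul_of_nonneg_right hs (Nat.cast_nonneg _))
  sps v P := (h.sps v P).trans (by
    have : σ * (d : ℝ) ^ 2 ≤ σ' * (d : ℝ) ^ 2 := mul_le_mul_of_nonneg_right hs (by positivity)
    linarith)
  cod P Q L w R S θ1 θ2 h1 h2 h3 h4 h5 h6 h7 h8 := by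
    refine (h.cod P Q L w R S θ1 θ2 h1 h2 h3 h4 h5 h6 h7 (le_trans ?_ h8)).mono hs
    exact mul_le_mul_of_nonneg_right hc (by positivity)

theorem REnv.mono {T β : Type} [Fintype β] {G F : SimpleGraph V} {q δ δ' : ℝ} {lab : V → T}
    {P : β → Finset T} {R : β → β → Prop} {U J : Finset V} (h : REnv G F q δ lab P R U J)
    (hq : 0 ≤ q) (hd : δ ≤ δ') : REnv G F q δ' lab P R U J where
  FG := h.FG
  JU := h.JU
  UP := h.UP
  JP := h.JP
  FF := h.FF
  JJ := h.JJ
  miss b v hv hb := (h.miss b v hv hb).trans (mul_le_mul_of_nonneg_right hd hq)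
  out b v hb := (h.out b v hb).trans (mul_le_mul_of_nonneg_right hd hq)
  junk v := (h.junk v).trans (mul_le_mul_of_nonneg_right hd hq)
  jdeg v hv := by
    have h1 := mul_le_mul_of_nonneg_right hd hq
    obtain ⟨h2, h3⟩ := h.jdeg v hv
    constructor <;> nlinarith

/-- every vertex has at most two neighbours in `UH` -/
theorem HPre.two {k : ℕ} {G : SimpleGraph V} {UH : Finset V} {c0 : V → Fin k}
    {EH : SimpleGraph V} {tu : V → Fin k} (h : HPre G UH c0 EH tu) (v : V) :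
    (nb G v ∩ UH).card ≤ 2 := by
  by_contra hlt
  push Not at hlt
  have hne : (nb G v ∩ UH).Nonempty := card_pos.mp (by omega)
  obtain ⟨u, hu⟩ := hne
  rw [mem_inter, mem_nb] at hu
  have hsub : nb G v ∩ UH ⊆ insert u (nb EH u) := by
    intro x hx
    rw [mem_inter, mem_nb] at hx
    rw [mem_insert, mem_nb]
    rcases h.far v u hu.2 x hx.2 hu.1 hx.1 with h1 | h1
    · exact Or.inl h1.symm
    · exact Or.inr h1
  have h1 := card_le_card hsub
  have h2 := card_insert_le u (nb EH u)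
  have h3 : (nb EH u).card ≤ 1 := h.mat u
  omega

end mono

end Pool.Agent.Work.MP_db9399_bg
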