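import Pool.Agent.Work.MP_db9399_bg_helper21.SXP
import Pool.Agent.Work.MP_db9399_bg_helper21.SXR
import Pool.Agent.Work.MP_db9399_bg_helper27.DEEPF
import Pool.Agent.Work.MP_db9399_bg_helper27.GROW
import Pool.Agent.Work.MP_db9399_bg_helper29.TUT2
import Pool.Agent.Work.MP_db9399_bg_helper31.FAC
import Pool.Agent.Work.MP_db9399_bg_helper34.LEFT
import Pool.Agent.Work.MP_db9399_bg_helper38.NRM
import Pool.Agent.Work.MP_db9399_bg_helper43.PAT
import Pool.Agent.Work.MP_db9399_bg_helper54.NDEC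
import Pool.Agent.Work.MP_db9399_bg_helper54.P0ALL
import Pool.Agent.Work.MP_db9399_bg_helper59.HIT2
import Pool.Agent.Work.MP_db9399_bg_helper60.FIND
import Pool.Agent.Work.MP_db9399_bg_helper63.T1
import Pool.Agent.Work.MP_db9399_bg_helper67.CODX
import Pool.Agent.Work.MP_db9399_bg_helper67.LAB
import Pool.Agent.Work.MP_db9399_bg_helper83.CAPE
import Pool.Agent.Work.MP_db9399_bg_helper83.RND1
import Pool.Agent.Work.MP_db9399_bg_helper84.UPAR
import Pool.Agent.Work.MP_db9399_bg_helper85.EMBB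
import Pool.Agent.Work.MP_db9399_bg_helper90.ASM
import Pool.Agent.Work.MP_db9399_bg_helper90.PEALL
import Pool.Agent.Work.MP_db9399_bg_helper96.TRF
import Pool.Agent.Work.MP_db9399_bg_helper99.UCL
import Pool.Agent.Work.MP_db9399_bg_helper99.VCOL

/-! THEOREM BIG, assembly (helper43) -/

set_option autoImplicit false

namespace Pool.Agent.Work.MP_db9399_bg

universe u

theorem stmt_MAIN : Stmt_MAIN.{u} := by
  have hTRF : Stmt_TRF.{u} := helper96.stmt_TRF helper67.stmt_CODX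
  have hT1 : Stmt_T1.{u} := helper63.stmt_T1 hTRF
  have hSXP : Stmt_SXP.{u} := helper21.stmt_SXP hTRF
  have hSXR : Stmt_SXR.{u} := helper21.stmt_SXR
  have hPAT : Stmt_PAT := helper43.stmt_PAT
  have hGROW : Stmt_GROW.{u} := helper27.stmt_GROW
  have hDEEPF : Stmt_DEEPF.{u} := helper27.stmt_DEEPF
  have hRND1 : Stmt_RND1.{u} := helper83.stmt_RND1 hSXP hSXR hT1 hPAT hGROW hDEEPF
    helper59.stmt_HIT2 helper29.stmt_TUT2
  have hCAPE : Stmt_CAPE.{u} := helper83.stmt_CAPE hT1 hPAT hGROW hDEEPF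
  have hNRM : Stmt_NRM.{u} := helper38.stmt_NRM helper67.stmt_LAB hSXP hPAT hRND1 hCAPE
    (helper54.stmt_NDEC helper31.stmt_FAC) helper99.stmt_VCOL
    (helper84.stmt_UPAR helper99.stmt_UCL) helper34.stmt_LEFT helper54.stmt_P0ALL
    helper90.stmt_PEALL helper90.stmt_ASM
  exact helper60.FIND.stmt_FIND hNRM helper85.stmt_EMBB

end Pool.Agent.Work.MP_db9399_bg
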