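import Mathlib
import Pool.Agent.Work.MP_db9399_co.Defs
import Pool.Agent.Work.MP_db9399_all.Interface
import Pool.Agent.Work.MP_db9399_px.Interface
import Pool.Agent.Work.MP_db9399_dn.Interface
import Pool.Agent.Work.MP_db9399_sc.Interface
import Pool.Agent.Work.MP_db9399_mad.Interface

/-!
# MP_db9399, THEOREM BIG: Q1 for graphs of large degree without almost bipartite parts and without
near-components of at most `(2 + g) Δ` vertices (owner helper43)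

Definitions and the exact statement `Stmt_X` of every block. See `BLUEPRINT.md`.
Cells: `ZMod (2 * m + 1)`; the labels `lam` are in `ZMod (2 * l + 1)`.
-/

set_option autoImplicit false

namespace Pool.Agent.Work.MP_db9399_bg

open Finset Classical
open Pool.Agent.Work.MP_db9399_all (nb)
open Pool.Agent.Work.MP_db9399_px (LWalk hit ee)
open Pool.Agent.Work.MP_db9399_dn (NB IsMat Tot)
open Pool.Agent.Work.MP_db9399_sc (cut Crit Conn Env Fam Rnd Hv)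
open _root_.MP_db9399_co

universe u

/-! ## Labels -/

/-- proportion of a set of labels -/
noncomputable def den {T : Type} [Fintype T] (P : Finset T) : ℝ :=
  (P.card : ℝ) / (Fintype.card T : ℝ)

section defs
variable {V : Type u} [Fintype V]

/-- the vertices with labels in `P` -/
noncomputable def cl {T : Type} (lab : V → T) (P : Finset T) : Finset V :=
  univ.filter (fun v => lab v ∈ P)

/-- near-regular graphs without almost bipartite parts and without small near-components -/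
structure BG (g ε : ℝ) (G : SimpleGraph V) (d : ℕ) : Prop where
  deg : ∀ v, (nb G v).card ≤ d
  low : ∀ v, (1 - ε) * d ≤ ((nb G v).card : ℝ)
  bip : ∀ S T : Finset V, Disjoint S T → (S.card : ℝ) ≤ (1 + g) * T.card →
    g * d * T.card ≤ ∑ t ∈ T, ((nb G t \ S).card : ℝ)
  nsc : ∀ C : Finset V, (C.card : ℝ) ≤ (2 + g) * d →
    g * d * C.card ≤ ∑ v ∈ C, ((nb G v \ C).card : ℝ)

/-- the pair (A, B) behaves as expected with respect to `P`, `Q` -/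
def Good (G : SimpleGraph V) (d : ℕ) (σ : ℝ) {T : Type} [Fintype T] (lab : V → T)
    (P Q : Finset T) (A B : Finset V) : Prop :=
  |ee G (A ∩ cl lab P) (cl lab Q \ B) - den P ^ 2 * ee G A (univ \ B)| ≤
    σ * d * ((A.card : ℝ) + B.card) ∧
  |((A ∩ cl lab P).card : ℝ) - den P * A.card| ≤ σ * ((A.card : ℝ) + B.card) ∧
  |((B ∩ cl lab Q).card : ℝ) - den P * B.card| ≤ σ * ((A.card : ℝ) + B.card)

/-- the properties of the random labels -/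
structure LabP (G : SimpleGraph V) (d : ℕ) (σ c1 : ℝ) {T : Type} [Fintype T] (lab : V → T) :
    Prop where
  deg : ∀ v (P : Finset T),
    |((nb G v ∩ cl lab P).card : ℝ) - den P * (nb G v).card| ≤ σ * d
  sps : ∀ v (P : Finset T), ee G (nb G v ∩ cl lab P) (nb G v ∩ cl lab P) ≤
    den P ^ 2 * ee G (nb G v) (nb G v) + σ * (d : ℝ) ^ 2
  cod : ∀ (P Q : Finset T) (L : ℕ) (w : ℕ → V) (R S : Finset V) (θ1 θ2 : ℝ),
    P.card = Q.card → P.Nonempty → LWalk G L w → 1 ≤ L → 0 ≤ θ1 → 0 ≤ θ2 →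
    (∀ v ∈ R ∪ S, ∃ i ≤ L, w i = v) →
    c1 * (L * d) ≤ Real.log d * (((hit G θ2 S).card : ℝ) + (hit G θ1 R).card) →
    Good G d σ lab P Q (hit G θ2 S) (hit G θ1 R)

/-! ## Patterns -/

/-- the labels adjacent to the class `b` -/
noncomputable def PN {T β : Type} [Fintype β] (P : β → Finset T) (R : β → β → Prop) (b : β) :
    Finset T := (univ.filter (fun b' => R b b')).biUnion P

/-- disjoint classes `P b` of proportion `p`, an `n`-regular relation `R` (loops allowed) such that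
any two classes are joined by a walk of length exactly `2 * L` -/
structure IsPat {T β : Type} [Fintype T] [Fintype β] (P : β → Finset T) (R : β → β → Prop)
    (n L : ℕ) (p : ℝ) : Prop where
  p0 : 0 < p
  p1 : p ≤ 1
  ne : ∀ b, (P b).Nonempty
  dn : ∀ b, den (P b) = p
  dis : ∀ b b', b ≠ b' → Disjoint (P b) (P b')
  sym : ∀ b b', R b b' → R b' b
  n0 : 0 < n
  reg : ∀ b, (univ.filter (fun b' => R b b')).card = n
  ew : ∀ b b', ∃ f : ℕ → β, f 0 = b ∧ f (2 * L) = b' ∧ ∀ i < 2 * L, R (f i) (f (i + 1))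

/-- energy of the pair (T, S): the sum of `|x v + x w|` over the edges `vw` of `F` inside `U`, where
`x = 1` on `T`, `x = - 1` on `S`, `x = 0` elsewhere -/
noncomputable def en (F : SimpleGraph V) (U T S : Finset V) : ℝ :=
  (∑ t ∈ T, (((nb F t ∩ U) \ S).card : ℝ)) + ∑ s ∈ S, (((nb F s ∩ U) \ T).card : ℝ)

/-- the energy for the graph of all edges of `G` which follow the pattern -/
noncomputable def enP {T β : Type} [Fintype β] (G : SimpleGraph V) (lab : V → T)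
    (P : β → Finset T) (R : β → β → Prop) (A B : Finset V) : ℝ :=
  ∑ b, ((∑ t ∈ A ∩ cl lab (P b), (((nb G t ∩ cl lab (PN P R b)) \ B).card : ℝ)) +
    ∑ s ∈ B ∩ cl lab (P b), (((nb G s ∩ cl lab (PN P R b)) \ A).card : ℝ))

/-- almost all vertices of `A1` have more than `q / 2` neighbours in `A2` (following the pattern),
almost all other vertices less than `q / 8`, where `q` is the typical degree -/
def Sep {T β : Type} [Fintype β] (G : SimpleGraph V) (lab : V → T) (P : β → Finset T)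
    (R : β → β → Prop) (q ex : ℝ) (A1 A2 : Finset V) : Prop :=
  ∀ b, ((A1.filter (fun v => lab v ∈ P b ∧
      ((nb G v ∩ cl lab (PN P R b) ∩ A2).card : ℝ) ≤ q / 2)).card : ℝ) ≤ ex ∧
    ((univ.filter (fun v => v ∉ A1 ∧ lab v ∈ P b ∧
      q / 8 ≤ ((nb G v ∩ cl lab (PN P R b) ∩ A2).card : ℝ))).card : ℝ) ≤ ex

/-- the symmetric difference is small -/
def Near (A B : Finset V) (x : ℝ) : Prop := ((A \ B).card : ℝ) + ((B \ A).card : ℝ) ≤ x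

/-- The situation of one round: the present vertices `U`, the present graph `F` (only its edges
inside `U` matter), the junk `J ⊆ U` outside the pattern. Up to `δ q` edges at every vertex, `F` is
the pattern graph. -/
structure REnv {T β : Type} [Fintype β] (G F : SimpleGraph V) (q δ : ℝ) (lab : V → T)
    (P : β → Finset T) (R : β → β → Prop) (U J : Finset V) : Prop where
  FG : F ≤ G
  JU : J ⊆ U
  UP : ∀ v ∈ U, v ∉ J → ∃ b, lab v ∈ P b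
  JP : ∀ v ∈ J, ∀ b, lab v ∉ P b
  FF : ∀ b, ∀ v ∈ U, lab v ∈ P b → ∀ w ∈ U, w ∉ J → F.Adj v w → lab w ∈ PN P R b
  JJ : ∀ v ∈ J, ∀ w ∈ J, ¬ F.Adj v w
  miss : ∀ b, ∀ v ∈ U, lab v ∈ P b →
    (((nb G v ∩ cl lab (PN P R b)) \ (nb F v ∩ U)).card : ℝ) ≤ δ * q
  out : ∀ b v, lab v ∈ P b → (((nb G v ∩ cl lab (PN P R b)) \ U).card : ℝ) ≤ δ * q
  junk : ∀ v, ((nb G v ∩ J).card : ℝ) ≤ δ * q
  jdeg : ∀ v ∈ J, (1 - δ) * q ≤ ((nb F v ∩ U).card : ℝ) ∧ ((nb F v ∩ U).card : ℝ) ≤ (1 + δ) * q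

/-! ## Deep vertices -/

/-- number of steps -/
noncomputable def r0 (g : ℝ) : ℕ := ⌈10 / g⌉₊ + 3

/-- `z` is deep in `C` with respect to the cell `Vg`: the neighbourhoods of `z`, of its neighbours,
.. up to distance `r0 g` in the cell `Vg` are almost contained in `C` (`N` = number of cells) -/
def Deep (g : ℝ) (G : SimpleGraph V) (d N : ℕ) (Vg C : Finset V) (z : V) : Prop :=
  ∃ Y : ℕ → Finset V, (∀ j, Y (j + 1) ⊆ Y j) ∧
    (∀ v ∈ Y 0, ((nb G v ∩ (Vg \ C)).card : ℝ) ≤ g / 100 * d / N) ∧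
    (∀ j < r0 g, ∀ v ∈ Y (j + 1), ((nb G v \ Y j).card : ℝ) ≤ g / 100 * d) ∧ z ∈ Y (r0 g)

/-- one vertex in each of some disjoint sets, deep in its set -/
def Spr (g : ℝ) (G : SimpleGraph V) (d N : ℕ) (Vg O : Finset V) : Prop :=
  ∃ Cs : Finset (Finset V), (∀ C ∈ Cs, ∀ C' ∈ Cs, C ≠ C' → Disjoint C C') ∧
    (∀ z ∈ O, z ∈ Vg ∧ ∃ C ∈ Cs, z ∈ C ∧ Deep g G d N Vg C z) ∧ ∀ C ∈ Cs, (O ∩ C).card ≤ 1

/-- `z` may be missed in the critical set `C` -/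
def Ok (F : SimpleGraph V) (U C : Finset V) (z : V) : Prop :=
  z ∈ C ∧ 4 ≤ (nb F z ∩ C).card ∧ ∀ x ∈ nb F z ∩ U, 4 ≤ (nb F x ∩ C).card

end defs

/-! ## The concrete labels -/

/-- cell, `lam`, subcell, optional centre, optional flag, split of the leftover -/
abbrev Lbl (l m r K K1 : ℕ) := ZMod (2 * m + 1) × ZMod (2 * l + 1) × Fin (r + 1) ×
  ZMod (2 * m + 1) × Fin (K + 1) × Fin (K1 + 1)

section lbl
variable {l m r K K1 : ℕ}

/-- boxes of labels -/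
noncomputable def bx (A : Finset (ZMod (2 * m + 1))) (B : Finset (ZMod (2 * l + 1)))
    (C : Finset (Fin (r + 1))) (D : Finset (ZMod (2 * m + 1))) (E : Finset (Fin (K + 1)))
    (F : Finset (Fin (K1 + 1))) : Finset (Lbl l m r K K1) :=
  A ×ˢ (B ×ˢ (C ×ˢ (D ×ˢ (E ×ˢ F))))

/-- the three cells of the rounds with centre `a` and distance `h + 1` -/
def c3f (a : ZMod (2 * m + 1)) (h : Fin m) : Fin 3 → ZMod (2 * m + 1) :=
  ![a, a + ((h : ℕ) + 1 : ℕ), a - ((h : ℕ) + 1 : ℕ)]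

/-- the same as a set -/
noncomputable def c3 (a : ZMod (2 * m + 1)) (h : Fin m) : Finset (ZMod (2 * m + 1)) :=
  univ.image (c3f a h)

/-- the classes of the rounds with centre `a` and distance `h + 1` -/
noncomputable def rP (l r K K1 : ℕ) (a : ZMod (2 * m + 1)) (h : Fin m) :
    Fin 3 × ZMod (2 * l + 1) → Finset (Lbl l m r K K1) :=
  fun b => bx {c3f a h b.1} {b.2} univ univ univ univ

/-- reserve labels -/
def rs {l : ℕ} (x y : ZMod (2 * l + 1)) : Prop := x + y = 0 ∨ x + y = 1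

theorem rs_symm {l : ℕ} {x y : ZMod (2 * l + 1)} (h : rs x y) : rs y x := by
  unfold rs at h ⊢
  rw [add_comm y x]
  exact h

/-- the pattern of the rounds -/
def rR (l : ℕ) (b b' : Fin 3 × ZMod (2 * l + 1)) : Prop := b.1 ≠ b'.1 ∧ rs b.2 b'.2

/-- the classes of the last rounds -/
noncomputable def eP (l m r K K1 : ℕ) : ZMod (2 * l + 1) → Finset (Lbl l m r K K1) :=
  fun b => bx univ {b} univ univ univ univ

/-- the pattern of the last rounds -/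
def eR (l : ℕ) (b b' : ZMod (2 * l + 1)) : Prop := rs b b'

/-- the label belongs to the reserved set `W` -/
def inW (t : Lbl l m r K K1) : Prop := 1 ≤ t.2.1.val ∧ t.2.1.val ≤ l

end lbl

section ctx
variable {V : Type u} [Fintype V] {l m r K K1 : ℕ}

/-- the cell number `a` -/
noncomputable def Vc (lab : V → Lbl l m r K K1) (a : ZMod (2 * m + 1)) : Finset V :=
  univ.filter (fun v => (lab v).1 = a)

/-- typical degree in the rounds -/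
noncomputable def qr (l m d : ℕ) : ℝ := 4 * (d : ℝ) / ((2 * m + 1) * (2 * l + 1))

/-- typical degree in the last rounds -/
noncomputable def qe (l d : ℕ) : ℝ := 2 * (d : ℝ) / (2 * l + 1)

/-- one more round is possible -/
def OneRound (g δ : ℝ) (G : SimpleGraph V) (d : ℕ) (lab : V → Lbl l m r K K1) : Prop :=
  ∀ (F : SimpleGraph V) (a : ZMod (2 * m + 1)) (h : Fin m) (U J : Finset V) (lg : ℕ)
    (Oi : ℕ → Finset V), REnv G F (qr l m d) δ lab (rP l r K K1 a h) (rR l) U J →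
    lg * (2 * m + 1) ≤ d → (∀ i < lg, Spr g G d (2 * m + 1) (Vc lab a) (Oi i)) →
    ∃ (M : SimpleGraph V) (O : Finset V), M ≤ F ∧ IsMat M ∧ (∀ v w, M.Adj v w → v ∈ U) ∧
      (∀ v ∈ U, v ∉ O → (nb M v).Nonempty) ∧ O ⊆ U ∧
      (∀ v ∈ O, (lab v).1 = a ∧ inW (lab v) ∧ ∀ i < lg, v ∉ Oi i) ∧
      Spr g G d (2 * m + 1) (Vc lab a) O

/-- critical sets of the last rounds contain unused vertices of the reserved set -/
def EndCap (g δ : ℝ) (G : SimpleGraph V) (d : ℕ) (lab : V → Lbl l m r K K1) : Prop :=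
  ∀ (F : SimpleGraph V) (U L C : Finset V) (qq lg : ℕ)
    (Oi : ZMod (2 * m + 1) → ℕ → Finset V),
    REnv G F (qe l d) δ lab (eP l m r K K1) (eR l) U ∅ →
    qe l d ≤ qq → (qq : ℝ) ≤ 101 / 100 * qe l d → L ⊆ U → Crit F qq U L C → Conn F C →
    lg * (2 * m + 1) ≤ d → (∀ a, ∀ i < lg, Spr g G d (2 * m + 1) (Vc lab a) (Oi a i)) →
    g / 40 * C.card ≤ ((C.filter (fun v => inW (lab v) ∧ ∀ a, ∀ i < lg, v ∉ Oi a i)).card : ℝ)

/-- signless expansion of the last pattern -/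
def EndSX (c : ℝ) (G : SimpleGraph V) (d : ℕ) (lab : V → Lbl l m r K K1) : Prop :=
  ∀ A B : Finset V, Disjoint A B →
    c * qe l d * ((A.card : ℝ) + B.card) ≤ enP G lab (eP l m r K K1) (eR l) A B

/-! ## The precolouring -/

/-- `UH` = vertices of `H`, `c0` their colours, `EH` = edges of `H`, `tu u` = colour of the edge of
`H` at `u` -/
structure HPre {k : ℕ} (G : SimpleGraph V) (UH : Finset V) (c0 : V → Fin k)
    (EH : SimpleGraph V) (tu : V → Fin k) : Prop where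
  EG : EH ≤ G
  mat : IsMat EH
  EU : ∀ v w, EH.Adj v w → v ∈ UH
  cov : ∀ u ∈ UH, ∃ u', EH.Adj u u'
  ind : ∀ u ∈ UH, ∀ u' ∈ UH, G.Adj u u' → EH.Adj u u'
  far : ∀ v, ∀ u ∈ UH, ∀ u' ∈ UH, G.Adj v u → G.Adj v u' → u = u' ∨ EH.Adj u u'
  cc : ∀ u u', EH.Adj u u' → c0 u ≠ c0 u'
  ct : ∀ u ∈ UH, tu u ≠ c0 u
  tt : ∀ u u', EH.Adj u u' → tu u = tu u'

/-! ## The data before the rounds -/

/-- index of a colour: centre, distance, number -/
abbrev Ix (m w : ℕ) := ZMod (2 * m + 1) × Fin m × Fin w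

/-- Near-decomposition: `Nd x` joins the cells `a` and `2 * x.1 - a` for all `a` except the three
cells of `x`, and misses only vertices with optional centre `x.1` and flag 0. -/
structure NDec {w : ℕ} (G : SimpleGraph V) (UH : Finset V) (lab : V → Lbl l m r K K1)
    (Nd : Ix m w → SimpleGraph V) : Prop where
  le : ∀ x, Nd x ≤ G
  mat : ∀ x, IsMat (Nd x)
  adj : ∀ x v v', (Nd x).Adj v v' → v ∉ UH ∧ (lab v).1 ∉ c3 x.1 x.2.1 ∧
    (lab v).1 + (lab v').1 = 2 * x.1 ∧ ¬ rs (lab v).2.1 (lab v').2.1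
  dis : ∀ x x', x ≠ x' → ∀ v v', (Nd x).Adj v v' → ¬ (Nd x').Adj v v'
  cov : ∀ x v, v ∉ UH → (lab v).1 ∉ c3 x.1 x.2.1 →
    ¬ ((lab v).2.2.2.1 = x.1 ∧ (lab v).2.2.2.2.1 = 0) → (nb (Nd x) v).Nonempty

/-- the vertex colouring; `e x` is the colour with index `x`, the subcell `s` of the cell `a` has
the palette of all `e (a, y)` with `pal y = s` -/
structure VCol {k w : ℕ} (G : SimpleGraph V) (UH : Finset V) (c0 : V → Fin k)
    (lab : V → Lbl l m r K K1) (e : Ix m w → Fin k) (pal : Fin m × Fin w → Fin (r + 1))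
    (c : V → Fin k) : Prop where
  cU : ∀ v ∈ UH, c v = c0 v
  cP : ∀ v, v ∉ UH → ∃ y, c v = e ((lab v).1, y) ∧ pal y = (lab v).2.2.1
  adj : ∀ v v', G.Adj v v' → c v ≠ c v'

/-- the partners of the vertices of `UH` in the colour `b` -/
noncomputable def UW {k : ℕ} (UH : Finset V) (c0 tu : V → Fin k) (wv : V → Fin k → V)
    (b : Fin k) : Finset V :=
  univ.filter (fun v => ∃ u ∈ UH, b ≠ c0 u ∧ b ≠ tu u ∧ wv u b = v)

/-- `wv u b` = partner of `u ∈ UH` in the colour `b`; colours `e x` and `e1 y` -/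
structure UPar {k w w1 : ℕ} (G : SimpleGraph V) (d : ℕ) (δ : ℝ) (UH : Finset V)
    (c0 tu : V → Fin k) (lab : V → Lbl l m r K K1) (e : Ix m w → Fin k)
    (e1 : Fin (K1 + 1) × Fin (K1 + 1) × Fin w1 → Fin k) (c : V → Fin k)
    (wv : V → Fin k → V) : Prop where
  adj : ∀ u ∈ UH, ∀ b, b ≠ c0 u → b ≠ tu u → (b ∈ Set.range e ∨ b ∈ Set.range e1) →
    G.Adj u (wv u b) ∧ wv u b ∉ UH ∧ c (wv u b) ≠ b
  inj : ∀ u ∈ UH, ∀ b b', b ≠ c0 u → b ≠ tu u → b' ≠ c0 u → b' ≠ tu u →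
    (b ∈ Set.range e ∨ b ∈ Set.range e1) → (b' ∈ Set.range e ∨ b' ∈ Set.range e1) →
    wv u b = wv u b' → b = b'
  inj2 : ∀ u ∈ UH, ∀ u' ∈ UH, ∀ b, b ≠ c0 u → b ≠ tu u → b ≠ c0 u' → b ≠ tu u' →
    (b ∈ Set.range e ∨ b ∈ Set.range e1) → wv u b = wv u' b → u = u'
  cel : ∀ u ∈ UH, ∀ x, e x ≠ c0 u → e x ≠ tu u → (lab (wv u (e x))).1 ∈ c3 x.1 x.2.1
  lam : ∀ u ∈ UH, ∀ y, e1 y ≠ c0 u → e1 y ≠ tu u → (lab (wv u (e1 y))).2.1 = 0
  spr : ∀ v b, (b ∈ Set.range e ∨ b ∈ Set.range e1) →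
    ((nb G v ∩ UW UH c0 tu wv b).card : ℝ) ≤ δ * d

/-- the edges inside the reserved set which are not in the near-decomposition -/
structure Lft {w w1 : ℕ} (G : SimpleGraph V) (UH : Finset V) (lab : V → Lbl l m r K K1)
    (Nd : Ix m w → SimpleGraph V)
    (Kk : Fin (K1 + 1) × Fin (K1 + 1) × Fin w1 → SimpleGraph V) : Prop where
  le : ∀ y, Kk y ≤ G
  mat : ∀ y, IsMat (Kk y)
  mem : ∀ y v v', (Kk y).Adj v v' → v ∉ UH ∧ inW (lab v) ∧
    ((lab v).2.2.2.2.2 = y.1 ∨ (lab v).2.2.2.2.2 = y.2.1)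
  dis : ∀ y y', y ≠ y' → ∀ v v', (Kk y).Adj v v' → ¬ (Kk y').Adj v v'
  new : ∀ y v v', (Kk y).Adj v v' → ∀ x, ¬ (Nd x).Adj v v'
  all : ∀ v v', v ∉ UH → v' ∉ UH → inW (lab v) → inW (lab v') → G.Adj v v' →
    (∃ x, (Nd x).Adj v v') ∨ ∃ y, (Kk y).Adj v v'

/-- the reserve graph -/
def Rg (G : SimpleGraph V) (UH : Finset V) (lab : V → Lbl l m r K K1) : SimpleGraph V where
  Adj v v' := G.Adj v v' ∧ v ∉ UH ∧ v' ∉ UH ∧ (lab v).1 ≠ (lab v').1 ∧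
    rs (lab v).2.1 (lab v').2.1
  symm := ⟨fun v v' h => ⟨h.1.symm, h.2.2.1, h.2.1, h.2.2.2.1.symm, rs_symm h.2.2.2.2⟩⟩
  loopless := ⟨fun v h => G.loopless.irrefl v h.1⟩

/-- the junk of the round `x` -/
noncomputable def Jk {w : ℕ} (UH : Finset V) (lab : V → Lbl l m r K K1)
    (Nd : Ix m w → SimpleGraph V) (x : Ix m w) : Finset V :=
  univ.filter (fun v => v ∉ UH ∧ (lab v).1 ∉ c3 x.1 x.2.1 ∧ ¬ (nb (Nd x) v).Nonempty)

/-- the vertices to be covered by reserve edges in the round `x` -/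
noncomputable def Ub {k w : ℕ} (UH : Finset V) (c0 tu : V → Fin k) (lab : V → Lbl l m r K K1)
    (e : Ix m w → Fin k) (c : V → Fin k) (wv : V → Fin k → V) (Nd : Ix m w → SimpleGraph V)
    (x : Ix m w) : Finset V :=
  univ.filter (fun v => (v ∉ UH ∧ (lab v).1 ∈ c3 x.1 x.2.1 ∧ c v ≠ e x ∧
    v ∉ UW UH c0 tu wv (e x)) ∨ v ∈ Jk UH lab Nd x)

/-- the result of the rounds of the colours `e x` -/
structure P0R {k w : ℕ} (g : ℝ) (G : SimpleGraph V) (d : ℕ) (UH : Finset V) (c0 tu : V → Fin k)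
    (lab : V → Lbl l m r K K1) (e : Ix m w → Fin k) (c : V → Fin k) (wv : V → Fin k → V)
    (Nd M : Ix m w → SimpleGraph V) (O : Ix m w → Finset V) : Prop where
  le : ∀ x v v', (M x).Adj v v' → (Rg G UH lab).Adj v v' ∧ v ∈ Ub UH c0 tu lab e c wv Nd x
  mat : ∀ x, IsMat (M x)
  dis : ∀ x x', x ≠ x' → ∀ v v', (M x).Adj v v' → ¬ (M x').Adj v v'
  cov : ∀ x, ∀ v ∈ Ub UH c0 tu lab e c wv Nd x, v ∉ O x → (nb (M x) v).Nonempty
  OU : ∀ x, ∀ v ∈ O x, v ∉ UH ∧ (lab v).1 = x.1 ∧ inW (lab v)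
  Od : ∀ x x', x ≠ x' → Disjoint (O x) (O x')
  spr : ∀ x, Spr g G d (2 * m + 1) (Vc lab x.1) (O x)

/-- the result of the rounds of the colours `e1 y`: reserve matchings `M1 y` covering everything
except `O1 y` -/
structure PeR {k w w1 : ℕ} (G : SimpleGraph V) (UH : Finset V) (c0 tu : V → Fin k)
    (lab : V → Lbl l m r K K1) (e1 : Fin (K1 + 1) × Fin (K1 + 1) × Fin w1 → Fin k)
    (wv : V → Fin k → V) (Kk : Fin (K1 + 1) × Fin (K1 + 1) × Fin w1 → SimpleGraph V)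
    (M : Ix m w → SimpleGraph V) (O : Ix m w → Finset V)
    (M1 : Fin (K1 + 1) × Fin (K1 + 1) × Fin w1 → SimpleGraph V)
    (O1 : Fin (K1 + 1) × Fin (K1 + 1) × Fin w1 → Finset V) : Prop where
  le : ∀ y v v', (M1 y).Adj v v' → (Rg G UH lab).Adj v v' ∧ v ∉ UW UH c0 tu wv (e1 y) ∧
    ¬ (nb (Kk y) v).Nonempty
  mat : ∀ y, IsMat (M1 y)
  dis : ∀ y y', y ≠ y' → ∀ v v', (M1 y).Adj v v' → ¬ (M1 y').Adj v v'
  new : ∀ y v v', (M1 y).Adj v v' → ∀ x, ¬ (M x).Adj v v'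
  cov : ∀ y v, v ∉ UH → v ∉ UW UH c0 tu wv (e1 y) → ¬ (nb (Kk y) v).Nonempty → v ∉ O1 y →
    (nb (M1 y) v).Nonempty
  OW : ∀ y, ∀ v ∈ O1 y, v ∉ UH ∧ inW (lab v)
  O1d : ∀ y y', y ≠ y' → Disjoint (O1 y) (O1 y')
  Od : ∀ y x, Disjoint (O1 y) (O x)

end ctx

/-! ## Blocks: labels and codes -/

/-- LAB (from `llx_holds`, Work/MP_db9399_px_helper35/Final.lean; `blk = id`, `pos = 0`). -/
def Stmt_LAB : Prop :=
  ∀ (T : Type) [Fintype T] [Nonempty T] (σ c1 : ℝ), 0 < σ → 0 < c1 → ∃ d0 : ℕ,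
    ∀ {V : Type u} [Fintype V] (G : SimpleGraph V) (d : ℕ), d0 ≤ d →
      (∀ v, (nb G v).card ≤ d) → ∃ lab : V → T, LabP G d σ c1 lab

/-- CODX (from SAMP, WALK of MP_db9399_px; compare Work/MP_db9399_sc_helper23/CODE.lean). -/
def Stmt_CODX : Prop :=
  ∀ (n : ℕ) (p ε : ℝ), 0 < n → 0 < p → p ≤ 1 → 0 < ε → ∃ (K : ℝ) (d0 : ℕ), 0 < K ∧
    ∀ {T β : Type} [Fintype T] [Fintype β] (P : β → Finset T) (R : β → β → Prop) (L : ℕ)
      {V : Type u} [Fintype V] (G F : SimpleGraph V) (d : ℕ) (lab : V → T) (X A1 A2 : Finset V),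
      IsPat P R n L p → d0 ≤ d → (∀ v, (nb G v).card ≤ d) → F ≤ G → Conn F X → A1 ⊆ X →
      A2 ⊆ X → n * p * d ≤ 4 * (X.card : ℝ) →
      (X.filter (fun v => ((nb G v ∩ X).card : ℝ) ≤ n * p * d / 4)).card ≤ 30 →
      Sep G lab P R (n * p * d) (ε * X.card) A1 A2 → Sep G lab P R (n * p * d) (ε * X.card) A2 A1 →
      ∃ (R1 R2 : Finset V) (k : ℕ) (w : ℕ → V) (θ : ℝ), (A1 = A2 → R1 = R2) ∧ LWalk G k w ∧
        1 ≤ k ∧ 0 ≤ θ ∧ (∀ v ∈ R1 ∪ R2, ∃ i ≤ k, w i = v) ∧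
        (k : ℝ) * d ≤ K * (Real.log d * X.card) ∧
        ∀ b, Near (A1 ∩ cl lab (P b)) (hit G θ (R2 ∩ cl lab (PN P R b)) ∩ cl lab (P b))
            (4 * ε * X.card) ∧
          Near (A2 ∩ cl lab (P b)) (hit G θ (R1 ∩ cl lab (PN P R b)) ∩ cl lab (P b))
            (4 * ε * X.card)

/-- TRF (from CODX): transfer of an almost extremal pair of a pattern to a pair of subsets of `V`. -/
def Stmt_TRF : Prop :=
  ∀ (n L : ℕ) (ε : ℝ), 0 < ε → ∃ ε1 : ℝ, 0 < ε1 ∧ ∀ M : ℕ, 0 < M →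
    ∃ (σ c1 ε0 : ℝ) (d0 : ℕ), 0 < σ ∧ 0 < c1 ∧ 0 < ε0 ∧
    ∀ {T β : Type} [Fintype T] [Fintype β] (P : β → Finset T) (R : β → β → Prop) (p : ℝ)
      {V : Type u} [Fintype V] (G F : SimpleGraph V) (d : ℕ) (lab : V → T) (X A1 A2 : Finset V),
      IsPat P R n L p → Fintype.card T = M → d0 ≤ d → (∀ v, (nb G v).card ≤ d) →
      (∀ v, (1 - ε0) * d ≤ ((nb G v).card : ℝ)) → LabP G d σ c1 lab → F ≤ G → Conn F X →
      A1 ⊆ X → A2 ⊆ X → n * p * d ≤ 4 * (X.card : ℝ) →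
      (X.filter (fun v => ((nb G v ∩ X).card : ℝ) ≤ n * p * d / 4)).card ≤ 30 →
      Sep G lab P R (n * p * d) (ε1 * X.card) A1 A2 →
      Sep G lab P R (n * p * d) (ε1 * X.card) A2 A1 →
      (∀ b b', R b b' →
        ee G (A1 ∩ cl lab (P b)) (cl lab (P b') \ A2) ≤ ε1 * (p * d) * X.card ∧
        ee G (A2 ∩ cl lab (P b)) (cl lab (P b') \ A1) ≤ ε1 * (p * d) * X.card) →
      ∃ Y1 Y2 : Finset V, (A1 = A2 → Y1 = Y2) ∧
        (∀ P' Q' : Finset T,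
          ee G (Y1 ∩ cl lab P') (cl lab Q' \ Y2) ≤ ε * (den P' * den Q') * d * (X.card / p) ∧
          ee G (Y2 ∩ cl lab P') (cl lab Q' \ Y1) ≤ ε * (den P' * den Q') * d * (X.card / p)) ∧
        (∀ P' : Finset T,
          |((Y1 ∩ cl lab P').card : ℝ) - den P' * Y1.card| ≤ ε * den P' * (X.card / p) ∧
          |((Y2 ∩ cl lab P').card : ℝ) - den P' * Y2.card| ≤ ε * den P' * (X.card / p)) ∧
        ∀ b, Near (A1 ∩ cl lab (P b)) (Y1 ∩ cl lab (P b)) (ε * X.card) ∧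
          Near (A2 ∩ cl lab (P b)) (Y2 ∩ cl lab (P b)) (ε * X.card)

/-- SXP (from TRF): signless expansion of pattern graphs. -/
def Stmt_SXP : Prop :=
  ∀ (g : ℝ) (n B L : ℕ), 0 < g → ∃ c : ℝ, 0 < c ∧ c ≤ 1 ∧ ∀ M : ℕ, 0 < M →
    ∃ (σ c1 ε0 : ℝ) (d0 : ℕ), 0 < σ ∧ 0 < c1 ∧ 0 < ε0 ∧
    ∀ {T β : Type} [Fintype T] [Fintype β] (P : β → Finset T) (R : β → β → Prop) (p : ℝ)
      {V : Type u} [Fintype V] (G : SimpleGraph V) (d : ℕ) (lab : V → T) (A B' : Finset V),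
      IsPat P R n L p → Fintype.card β ≤ B → Fintype.card T = M → d0 ≤ d → BG g ε0 G d →
      LabP G d σ c1 lab → Disjoint A B' → A ∪ B' ⊆ cl lab (univ.biUnion P) →
      c * (n * p * d) * ((A.card : ℝ) + B'.card) ≤ enP G lab P R A B'

/-- SXR: the same for the situation of a round. -/
def Stmt_SXR : Prop :=
  ∀ {T β : Type} [Fintype T] [Fintype β] (P : β → Finset T) (R : β → β → Prop) (n L : ℕ)
    (p c δ q : ℝ) {V : Type u} [Fintype V] (G F : SimpleGraph V) (lab : V → T)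
    (U J : Finset V), IsPat P R n L p → 0 < c → c ≤ 1 → 0 ≤ δ → δ ≤ c / 100 → 0 ≤ q →
    (∀ A B : Finset V, Disjoint A B → A ∪ B ⊆ cl lab (univ.biUnion P) →
      c * q * ((A.card : ℝ) + B.card) ≤ enP G lab P R A B) →
    REnv G F q δ lab P R U J →
    ∀ A B : Finset V, Disjoint A B → A ⊆ U → B ⊆ U →
      c / 4 * q * ((A.card : ℝ) + B.card) ≤ en F U A B

/-- T1 (from TRF): critical sets come from near-components of `G`. -/
def Stmt_T1 : Prop :=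
  ∀ (g ε : ℝ) (n B L : ℕ), 0 < g → 0 < ε → ∃ δ : ℝ, 0 < δ ∧ ∀ M : ℕ, 0 < M →
    ∃ (σ c1 ε0 : ℝ) (d0 : ℕ), 0 < σ ∧ 0 < c1 ∧ 0 < ε0 ∧
    ∀ {T β : Type} [Fintype T] [Fintype β] (P : β → Finset T) (R : β → β → Prop) (p : ℝ)
      {V : Type u} [Fintype V] (G F : SimpleGraph V) (d qq : ℕ) (lab : V → T)
      (U J L' C : Finset V), IsPat P R n L p → Fintype.card β ≤ B → Fintype.card T = M →
      d0 ≤ d → BG g ε0 G d → LabP G d σ c1 lab → REnv G F (n * p * d) δ lab P R U J →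
      n * p * d ≤ qq → (qq : ℝ) ≤ 101 / 100 * (n * p * d) → L' ⊆ U → Crit F qq U L' C →
      Conn F C →
      ∃ Y : Finset V, (2 + g) * d < Y.card ∧
        (∀ P' Q' : Finset T,
          ee G (Y ∩ cl lab P') (cl lab Q' \ Y) ≤ ε * (den P' * den Q') * d * Y.card) ∧
        (∀ P' : Finset T, |((Y ∩ cl lab P').card : ℝ) - den P' * Y.card| ≤
          ε * den P' * Y.card) ∧
        ∀ b, Near (C ∩ cl lab (P b)) (Y ∩ cl lab (P b)) (ε * p * Y.card)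

/-- PAT: the two patterns. -/
def Stmt_PAT : Prop :=
  ∀ l m r K K1 : ℕ, 1 ≤ l → 1 ≤ m →
    (∀ (a : ZMod (2 * m + 1)) (h : Fin m), IsPat (rP l r K K1 a h) (rR l) 4 (2 * l + 1)
      (1 / ((2 * m + 1) * (2 * l + 1)))) ∧
    IsPat (eP l m r K K1) (eR l) 2 (2 * l + 1) (1 / (2 * l + 1))

/-! ## Blocks: deep vertices -/

/-- GROW: two sets in which `z` is deep have a large intersection. -/
def Stmt_GROW : Prop :=
  ∀ g : ℝ, 0 < g → g ≤ 1 / 10 → ∀ {V : Type u} [Fintype V] (G : SimpleGraph V) (d N : ℕ)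
    (Vg C C' : Finset V) (z : V), 0 < N → BG g (g / 100) G d →
    (∀ v, (1 - g / 100) * d / N ≤ ((nb G v ∩ Vg).card : ℝ)) →
    Deep g G d N Vg C z → Deep g G d N Vg C' z →
    (2 + g / 2) * d ≤ N * ((C ∩ C' ∩ Vg).card : ℝ)

/-- DEEPF: few vertices of a near-component are not deep. -/
def Stmt_DEEPF : Prop :=
  ∀ g : ℝ, 0 < g → ∃ κ : ℝ, 0 < κ ∧ ∀ {V : Type u} [Fintype V] (G : SimpleGraph V) (d N : ℕ)
    (Vg Y C : Finset V) (ε : ℝ), 0 < N → 0 < d → 0 ≤ ε → (∀ v, (nb G v).card ≤ d) →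
    (∀ v, ((nb G v ∩ Vg).card : ℝ) ≤ 2 * d / N) →
    ee G Y (univ \ Y) ≤ ε * d * Y.card → ee G (Y ∩ Vg) (univ \ Y) ≤ ε * (d / N) * Y.card →
    ee G Y (Vg \ Y) ≤ ε * (d / N) * Y.card →
    ee G (Y ∩ Vg) (Vg \ Y) ≤ ε * (d / (N : ℝ) ^ 2) * Y.card →
    (((Y ∩ Vg).filter (fun v => ¬ Deep g G d N Vg C v)).card : ℝ) ≤
      κ * (ε * Y.card / N + (((Y ∩ Vg) \ C).card : ℝ))

/-! ## Blocks: one round -/

/-- HIT2 (compare Work/MP_db9399_sc_helper59/HIT.lean): disjoint connected critical sets such that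
every critical set contains one of them up to three vertices. -/
def Stmt_HIT2 : Prop :=
  ∃ d0 : ℕ, ∀ {V : Type u} [Fintype V] (F : SimpleGraph V) (d : ℕ) (U L : Finset V),
    d0 ≤ d → Env F F d U L →
    ∃ Cs : Finset (Finset V), Fam F F d U L Cs ∧
      ∀ C, Crit F d U L C → ∃ C' ∈ Cs, (C' \ C).card ≤ 3

/-- TUT2 (from `tutte_fam`, compare Work/MP_db9399_sc_helper43/TUT.lean): one missed vertex in every
set of the family suffices. -/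
def Stmt_TUT2 : Prop :=
  ∀ c : ℝ, 0 < c → c ≤ 1 / 100 → ∃ (δ : ℝ) (d0 : ℕ), 0 < δ ∧
    ∀ {V : Type u} [Fintype V] (F : SimpleGraph V) (d : ℕ) (U O : Finset V)
      (Cs : Finset (Finset V)), d0 ≤ d → (∀ v, (nb F v).card ≤ d) →
      (∀ v ∈ U, (1 - δ) * d ≤ ((nb F v ∩ U).card : ℝ)) →
      (∀ A B : Finset V, Disjoint A B → A ⊆ U → B ⊆ U →
        c * d * ((A.card : ℝ) + B.card) ≤ en F U A B) →
      (∀ C ∈ Cs, Crit F d U U C) → (∀ C ∈ Cs, ∀ C' ∈ Cs, C ≠ C' → Disjoint C C') →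
      (∀ C, Crit F d U U C → ∃ C' ∈ Cs, (C' \ C).card ≤ 3) →
      (∀ C ∈ Cs, ∃ z ∈ O, Ok F U C z) →
      ∃ M : SimpleGraph V, M ≤ F ∧ IsMat M ∧ (∀ v w, M.Adj v w → v ∈ U) ∧
        ∀ v ∈ U, v ∉ O → (nb M v).Nonempty

/-- RND1 (from SXP, SXR, T1, PAT, GROW, DEEPF, HIT2, TUT2): one round. -/
def Stmt_RND1 : Prop :=
  ∀ g : ℝ, 0 < g → g ≤ 1 / 10 → ∃ l0 : ℕ, ∀ l : ℕ, l0 ≤ l → ∃ δ : ℝ, 0 < δ ∧
    ∀ m r K K1 : ℕ, 1 ≤ m → ∃ (σ c1 ε0 : ℝ) (d0 : ℕ), 0 < σ ∧ 0 < c1 ∧ 0 < ε0 ∧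
    ∀ {V : Type u} [Fintype V] (G : SimpleGraph V) (d : ℕ) (lab : V → Lbl l m r K K1),
      d0 ≤ d → BG g ε0 G d → LabP G d σ c1 lab → OneRound g δ G d lab

/-- CAPE (from T1, PAT, GROW, DEEPF): the last rounds. -/
def Stmt_CAPE : Prop :=
  ∀ g : ℝ, 0 < g → g ≤ 1 / 10 → ∃ l0 : ℕ, ∀ l : ℕ, l0 ≤ l → ∃ δ : ℝ, 0 < δ ∧
    ∀ m r K K1 : ℕ, 1 ≤ m → ∃ (σ c1 ε0 : ℝ) (d0 : ℕ), 0 < σ ∧ 0 < c1 ∧ 0 < ε0 ∧
    ∀ {V : Type u} [Fintype V] (G : SimpleGraph V) (d : ℕ) (lab : V → Lbl l m r K K1),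
      d0 ≤ d → BG g ε0 G d → LabP G d σ c1 lab → EndCap g δ G d lab

/-! ## Blocks: the data before the rounds -/

/-- FAC (from REG of MP_db9399_exp): disjoint matchings between two sets which cover everything
outside the optional set `Op`. -/
def Stmt_FAC : Prop :=
  ∀ {V : Type u} [Fintype V] (G : SimpleGraph V) (q μ o δ : ℝ) (D : ℕ) (A A' Op : Finset V),
    0 < q → 0 < μ → μ ≤ 1 → 0 < o → o ≤ 1 → 0 ≤ δ → 20 * δ ≤ μ * o → (D : ℝ) ≤ (1 - μ) * q →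
    Disjoint A A' → 2 * D ≤ A.card → 2 * D ≤ A'.card →
    (∀ v ∈ A, |((nb G v ∩ A').card : ℝ) - q| ≤ δ * q) →
    (∀ v ∈ A', |((nb G v ∩ A).card : ℝ) - q| ≤ δ * q) →
    (∀ v ∈ A, o * q ≤ ((nb G v ∩ A' ∩ Op).card : ℝ)) →
    (∀ v ∈ A', o * q ≤ ((nb G v ∩ A ∩ Op).card : ℝ)) →
    ∃ M : Fin D → SimpleGraph V, (∀ i, M i ≤ G ∧ IsMat (M i)) ∧
      (∀ i v w, (M i).Adj v w → (v ∈ A ∧ w ∈ A') ∨ (v ∈ A' ∧ w ∈ A)) ∧
      (∀ i j, i ≠ j → ∀ v w, (M i).Adj v w → ¬ (M j).Adj v w) ∧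
      ∀ i, ∀ v ∈ A ∪ A', v ∉ Op → (nb (M i) v).Nonempty

/-- NDEC (from FAC): the near-decomposition. -/
def Stmt_NDEC : Prop :=
  ∀ (g : ℝ) (l m r K K1 : ℕ), 0 < g → 1 ≤ l → 2 ≤ m → ∃ (σ ε0 : ℝ) (d0 : ℕ), 0 < σ ∧ 0 < ε0 ∧
    ∀ {V : Type u} [Fintype V] (G : SimpleGraph V) (d w : ℕ) (c1 : ℝ) (UH : Finset V)
      (lab : V → Lbl l m r K K1), d0 ≤ d → BG g ε0 G d → LabP G d σ c1 lab →
      (∀ v, (nb G v ∩ UH).card ≤ 2) →
      ((m : ℝ) - 1) * w ≤ (1 - 1 / (2 * m + 1)) * ((1 - 2 / (2 * l + 1)) * d / (2 * m + 1)) →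
      ∃ Nd : Ix m w → SimpleGraph V, NDec G UH lab Nd

/-- VCOL (from VCX of MP_db9399_exp): the vertex colouring. -/
def Stmt_VCOL : Prop :=
  ∀ g : ℝ, 0 < g → g ≤ 1 / 10 → ∃ κ : ℝ, 0 < κ ∧ κ ≤ 1 ∧ ∀ l m r K K1 : ℕ,
    ∃ (σ ε0 : ℝ) (d0 : ℕ), 0 < σ ∧ 0 < ε0 ∧
    ∀ {V : Type u} [Fintype V] (G : SimpleGraph V) (d k w : ℕ) (c1 : ℝ) (UH : Finset V)
      (c0 : V → Fin k) (EH : SimpleGraph V) (tu : V → Fin k) (lab : V → Lbl l m r K K1)
      (e : Ix m w → Fin k) (pal : Fin m × Fin w → Fin (r + 1)), d0 ≤ d → BG g ε0 G d →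
      LabP G d σ c1 lab → HPre G UH c0 EH tu → Function.Injective e →
      (∀ s, (1 - κ) * d ≤
        (2 * m + 1) * (r + 1) * ((univ.filter (fun y => pal y = s)).card : ℝ)) →
      ∃ c : V → Fin k, VCol G UH c0 lab e pal c

/-- UCL (from LLLI, Koenig; compare Work/MP_db9399_exp_helper59/UCOL.lean): random system of
neighbours for all colours, from lists, not concentrated anywhere. -/
def Stmt_UCL : Prop :=
  ∀ c δ : ℝ, 0 < c → 0 < δ → ∃ d0 : ℕ, ∀ {V : Type u} [Fintype V] (G : SimpleGraph V)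
    (d D k : ℕ) (U : Finset V) (I : V → Finset (Fin k)) (Al : V → Fin k → Finset V),
    d0 ≤ d → c * d ≤ (D : ℝ) → D ≤ d → (∀ v, (nb G v).card ≤ d) →
    (∀ v, (nb G v ∩ U).card ≤ 2) → (∀ u ∈ U, (I u).card ≤ d) →
    (∀ u ∈ U, ∀ b ∈ I u, Al u b ⊆ nb G u ∧ D ≤ (Al u b).card) →
    (∀ u ∈ U, ∀ v, ((I u).filter (fun b => v ∈ Al u b)).card ≤ D) →
    ∃ f : V → Fin k → V, (∀ u ∈ U, ∀ b ∈ I u, f u b ∈ Al u b) ∧
      (∀ u ∈ U, Set.InjOn (f u) (I u : Set (Fin k))) ∧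
      ∀ v b, (((nb G v).filter (fun x => ∃ u ∈ U, b ∈ I u ∧ f u b = x)).card : ℝ) ≤ δ * d

/-- UPAR (from UCL): the partners of the vertices of `UH`. -/
def Stmt_UPAR : Prop :=
  ∀ (l m r K K1 : ℕ) (δ : ℝ), 0 < δ → 20 ≤ l → 1 ≤ m → 2 * l + 1 ≤ r →
    ∃ (σ ε0 : ℝ) (d0 : ℕ), 0 < σ ∧ 0 < ε0 ∧
    ∀ {V : Type u} [Fintype V] (G : SimpleGraph V) (d k w w1 : ℕ) (g c1 : ℝ) (UH : Finset V)
      (c0 : V → Fin k) (EH : SimpleGraph V) (tu : V → Fin k) (lab : V → Lbl l m r K K1)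
      (e : Ix m w → Fin k) (e1 : Fin (K1 + 1) × Fin (K1 + 1) × Fin w1 → Fin k)
      (pal : Fin m × Fin w → Fin (r + 1)) (c : V → Fin k), d0 ≤ d → BG g ε0 G d →
      LabP G d σ c1 lab → HPre G UH c0 EH tu → Function.Injective e → Function.Injective e1 →
      (∀ x y, e x ≠ e1 y) → VCol G UH c0 lab e pal c →
      (2 * (m : ℝ) + 1) * m * w ≤ (1 - 3 / (2 * (2 * l + 1))) * d →
      ((K1 : ℝ) + 1) ^ 2 * w1 ≤ d / (4 * (2 * l + 1)) →
      ∃ wv : V → Fin k → V, UPar G d δ UH c0 tu lab e e1 c wv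

/-- LEFT (from `vizing`, Work/MP_db9399_all_helper34/VIZ.lean): the leftover inside `W`. -/
def Stmt_LEFT : Prop :=
  ∀ l m r K K1 : ℕ, 1 ≤ l → 2 ≤ m → ∃ (σ ε0 : ℝ) (d0 : ℕ), 0 < σ ∧ 0 < ε0 ∧
    ∀ {V : Type u} [Fintype V] (G : SimpleGraph V) (d w w1 : ℕ) (g c1 : ℝ) (UH : Finset V)
      (lab : V → Lbl l m r K K1) (Nd : Ix m w → SimpleGraph V), d0 ≤ d → BG g ε0 G d →
      LabP G d σ c1 lab → NDec G UH lab Nd →
      (1 - 2 / (2 * m + 1)) * ((1 - 2 / (2 * l + 1)) * d / (2 * m + 1)) ≤ ((m : ℝ) - 1) * w →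
      6 * (d : ℝ) / (2 * m + 1) ≤ w1 →
      ∃ Kk : Fin (K1 + 1) × Fin (K1 + 1) × Fin w1 → SimpleGraph V, Lft G UH lab Nd Kk

/-! ## Blocks: all rounds -/

/-- P0ALL: the rounds of the colours `e x`. -/
def Stmt_P0ALL : Prop :=
  ∀ (g δ : ℝ) (l m r K K1 : ℕ), 0 < g → 0 < δ → δ ≤ 1 / 10 → 1 ≤ l → 4 ≤ m →
    1000 * (2 * (l : ℝ) + 1) ≤ δ * (2 * m + 1) → 1000 * (2 * (l : ℝ) + 1) ≤ δ * (r + 1) →
    1000 * (2 * (l : ℝ) + 1) ≤ δ * (K + 1) →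
    ∃ (σ ε0 δ2 : ℝ) (d0 : ℕ), 0 < σ ∧ 0 < ε0 ∧ 0 < δ2 ∧
    ∀ {V : Type u} [Fintype V] (G : SimpleGraph V) (d k w w1 : ℕ) (c1 : ℝ) (UH : Finset V)
      (c0 : V → Fin k) (EH : SimpleGraph V) (tu : V → Fin k) (lab : V → Lbl l m r K K1)
      (e : Ix m w → Fin k) (e1 : Fin (K1 + 1) × Fin (K1 + 1) × Fin w1 → Fin k)
      (pal : Fin m × Fin w → Fin (r + 1)) (c : V → Fin k) (wv : V → Fin k → V)
      (Nd : Ix m w → SimpleGraph V), d0 ≤ d → BG g ε0 G d → LabP G d σ c1 lab →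
      OneRound g δ G d lab → HPre G UH c0 EH tu → Function.Injective e →
      VCol G UH c0 lab e pal c → UPar G d δ2 UH c0 tu lab e e1 c wv → NDec G UH lab Nd →
      (2 * (m : ℝ) + 1) * m * w ≤ d →
      ∃ (M : Ix m w → SimpleGraph V) (O : Ix m w → Finset V),
        P0R g G d UH c0 tu lab e c wv Nd M O

/-- PEALL (from PALL of MP_db9399_sc): the rounds of the colours `e1 y`. -/
def Stmt_PEALL : Prop :=
  ∀ (g δ cE : ℝ) (l : ℕ), 0 < g → g ≤ 1 / 10 → 0 < δ → 0 < cE → 1 ≤ l →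
    ∃ K0 : ℕ, ∀ K1 : ℕ, K0 ≤ K1 → ∃ m0 : ℕ, ∀ m r K : ℕ, m0 ≤ m →
    ∃ (σ ε0 δ2 : ℝ) (d0 : ℕ), 0 < σ ∧ 0 < ε0 ∧ 0 < δ2 ∧
    ∀ {V : Type u} [Fintype V] (G : SimpleGraph V) (d k w w1 : ℕ) (c1 : ℝ) (UH : Finset V)
      (c0 : V → Fin k) (EH : SimpleGraph V) (tu : V → Fin k) (lab : V → Lbl l m r K K1)
      (e : Ix m w → Fin k) (e1 : Fin (K1 + 1) × Fin (K1 + 1) × Fin w1 → Fin k)
      (c : V → Fin k) (wv : V → Fin k → V) (Nd M : Ix m w → SimpleGraph V)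
      (O : Ix m w → Finset V)
      (Kk : Fin (K1 + 1) × Fin (K1 + 1) × Fin w1 → SimpleGraph V), d0 ≤ d → BG g ε0 G d →
      LabP G d σ c1 lab → EndCap g δ G d lab → EndSX cE G d lab → HPre G UH c0 EH tu →
      Function.Injective e1 → UPar G d δ2 UH c0 tu lab e e1 c wv → NDec G UH lab Nd →
      P0R g G d UH c0 tu lab e c wv Nd M O → Lft G UH lab Nd Kk →
      (2 * (m : ℝ) + 1) * m * w ≤ d → (w1 : ℝ) ≤ 7 * d / (2 * m + 1) →
      ∃ (M1 : Fin (K1 + 1) × Fin (K1 + 1) × Fin w1 → SimpleGraph V)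
        (O1 : Fin (K1 + 1) × Fin (K1 + 1) × Fin w1 → Finset V),
        PeR G UH c0 tu lab e1 wv Kk M O M1 O1

/-- ASM (from CORE of MP_db9399_dn; compare Work/MP_db9399_sc_helper23/ASM.lean): the total
colouring. -/
def Stmt_ASM : Prop :=
  ∀ {V : Type u} [Fintype V] {l m r K K1 : ℕ} (g δ : ℝ) (G : SimpleGraph V) (d k w w1 : ℕ)
    (UH : Finset V) (c0 : V → Fin k) (EH : SimpleGraph V) (tu : V → Fin k)
    (lab : V → Lbl l m r K K1) (e : Ix m w → Fin k)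
    (e1 : Fin (K1 + 1) × Fin (K1 + 1) × Fin w1 → Fin k) (pal : Fin m × Fin w → Fin (r + 1))
    (c : V → Fin k) (wv : V → Fin k → V) (Nd M : Ix m w → SimpleGraph V)
    (O : Ix m w → Finset V) (Kk M1 : Fin (K1 + 1) × Fin (K1 + 1) × Fin w1 → SimpleGraph V)
    (O1 : Fin (K1 + 1) × Fin (K1 + 1) × Fin w1 → Finset V),
    (∀ v, (nb G v).card ≤ d) → d + 2 ≤ k → HPre G UH c0 EH tu → Function.Injective e →
    Function.Injective e1 → (∀ x y, e x ≠ e1 y) → (∀ u ∈ UH, c0 u ∈ Set.range e) →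
    (∀ u ∈ UH, tu u ∈ Set.range e) → VCol G UH c0 lab e pal c →
    UPar G d δ UH c0 tu lab e e1 c wv → NDec G UH lab Nd →
    P0R g G d UH c0 tu lab e c wv Nd M O → Lft G UH lab Nd Kk →
    PeR G UH c0 tu lab e1 wv Kk M O M1 O1 →
    ∃ t : V → V → Fin k, Tot G c t ∧ ∀ v v', EH.Adj v v' → t v v' = tu v

/-! ## The theorem -/

/-- NRM: near-regular graphs (all blocks). -/
def Stmt_NRM : Prop :=
  ∀ g : ℝ, 0 < g → g ≤ 1 / 10 → ∃ (ε0 : ℝ) (d0 : ℕ), 0 < ε0 ∧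
    ∀ {V : Type u} [Fintype V] (G : SimpleGraph V) (d k : ℕ) (UH : Finset V)
      (c0 : V → Fin k) (EH : SimpleGraph V) (tu : V → Fin k) (CH : Finset (Fin k)),
      d0 ≤ d → d + 2 ≤ k → BG g ε0 G d → HPre G UH c0 EH tu → (CH.card : ℝ) ≤ (1 - g) * d →
      (∀ u ∈ UH, c0 u ∈ CH ∧ tu u ∈ CH) →
      ∃ (c : V → Fin k) (t : V → V → Fin k), Tot G c t ∧ (∀ v ∈ UH, c v = c0 v) ∧
        ∀ v v', EH.Adj v v' → t v v' = tu v

/-- EMBB (from EXPANDER of MP_db9399_mad): embedding into a near-regular graph. -/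
def Stmt_EMBB : Prop :=
  ∀ g : ℝ, 0 < g → g ≤ 1 / 10 → ∃ g' : ℝ, 0 < g' ∧ g' ≤ g ∧ ∀ ε : ℝ, 0 < ε → ∃ d1 : ℕ,
    ∀ {V : Type u} [Fintype V] (G : SimpleGraph V) (d : ℕ), d1 ≤ d →
      (∀ v, (nb G v).card ≤ d) →
      (∀ S T : Finset V, Disjoint S T → (∀ t ∈ T, (1 - g) * d ≤ ((nb G t).card : ℝ)) →
        (S.card : ℝ) ≤ (1 + g) * T.card → g * d * T.card ≤ ∑ t ∈ T, ((nb G t \ S).card : ℝ)) →
      (∀ C : Finset V, (∀ v ∈ C, (1 - g) * d ≤ ((nb G v).card : ℝ)) →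
        (C.card : ℝ) ≤ (2 + g) * d → g * d * C.card ≤ ∑ v ∈ C, ((nb G v \ C).card : ℝ)) →
      ∃ (W : Type) (_ : Fintype W) (K : SimpleGraph W) (R : V → W → Prop),
        (∀ w a b, R a w → R b w → a = b) ∧ BG g' ε (MP_db9399_mad.EG G K R) d

/-- THE THEOREM. -/
def Stmt_MAIN : Prop :=
  ∀ g : ℝ, 0 < g → ∃ d0 : ℕ, ∀ (V : Type u) [Fintype V] (G : SimpleGraph V)
    [DecidableRel G.Adj] (k : ℕ), d0 ≤ G.maxDegree →
    (∀ S T : Finset V, Disjoint S T → (∀ t ∈ T, (1 - g) * G.maxDegree ≤ (G.degree t : ℝ)) →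
      (S.card : ℝ) ≤ (1 + g) * T.card →
      g * G.maxDegree * T.card ≤ ((G.interedges T (univ \ S)).card : ℝ)) →
    (∀ C : Finset V, (∀ v ∈ C, (1 - g) * G.maxDegree ≤ (G.degree v : ℝ)) →
      (C.card : ℝ) ≤ (2 + g) * G.maxDegree →
      g * G.maxDegree * C.card ≤ ((G.interedges C (univ \ C)).card : ℝ)) →
    G.maxDegree + 2 ≤ k →
    ∀ H : G.Subgraph, IsDistThreeMatching H → ∀ (c₀ : V → Fin k) (t₀ : Sym2 V → Fin k),
      IsTotalColoring H.spanningCoe c₀ t₀ →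
      ((c₀ '' H.verts ∪ t₀ '' H.edgeSet).ncard : ℝ) ≤ (1 - g) * G.maxDegree →
      ∃ (c : V → Fin k) (t : Sym2 V → Fin k), IsTotalColoring G c t ∧
        (∀ v ∈ H.verts, c v = c₀ v) ∧ ∀ e ∈ H.edgeSet, t e = t₀ e

/-- FIND (compare Work/MP_db9399_sc_helper26/FIND.lean). -/
def Stmt_FIND : Prop := Stmt_NRM.{u} → Stmt_EMBB.{u} → Stmt_MAIN.{u}

end Pool.Agent.Work.MP_db9399_bg
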